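import Mathlib
import Pool.Agent.Helper25.FIM.Main

set_option autoImplicit false

/-!
# MP_3f8f93_al, Q1: a context-free fixed point submonoid of an endomorphism of a free inverse
monoid is finitely generated, hence rational

The free inverse monoid `FreeInvMonoid A`, its canonical map `can` from words, and the submonoid
`Fix φ` are defined in `Pool.Agent.Helper25.FIM.Munn` and `Pool.Agent.Helper25.FIM.Main`.
-/

namespace Pool.Agent.Results.MP_3f8f93_al.ContextFreeFix

open Pool.Agent.Helper25.FIM

/-- `X` is the image of a regular language over `A ∪ A⁻¹`. -/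
def IsRationalSubset {A : Type} (X : Set (FreeInvMonoid A)) : Prop :=
  ∃ L : Language (A × Bool), L.IsRegular ∧ can '' L = X

/-- `X` is the image of a context-free language over `A ∪ A⁻¹`. -/
def IsContextFreeSubset {A : Type} (X : Set (FreeInvMonoid A)) : Prop :=
  ∃ L : Language (A × Bool), L.IsContextFree ∧ can '' L = X

/-- the star of a finite language is regular -/
theorem regular_kstar {α : Type} (F : Language α) (hF : Set.Finite {w | w ∈ F}) :
    (KStar.kstar F).IsRegular := by
  classical
  rw [Language.isRegular_iff_finite_range_leftQuotient]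
  set L : Language α := KStar.kstar F with hL
  have hmul : ∀ a ∈ L, ∀ b ∈ L, a ++ b ∈ L := by
    intro a ha b hb
    rw [hL, Language.mem_kstar] at ha hb ⊢
    obtain ⟨La, rfl, h1⟩ := ha
    obtain ⟨Lb, rfl, h2⟩ := hb
    refine ⟨La ++ Lb, by simp, ?_⟩
    intro y hy
    rcases List.mem_append.1 hy with h | h
    · exact h1 y h
    · exact h2 y h
  have hone : ∀ a ∈ F, a ∈ L := by
    intro a ha
    rw [hL, Language.mem_kstar]
    exact ⟨[a], by simp, by simpa using ha⟩
  have hnil : [] ∈ L := Language.nil_mem_kstar F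
  -- the finite set of possible remainders
  set T : Set (List α) := {s | s = [] ∨ ∃ w ∈ F, s ∈ w.tails} with hT
  have hTf : T.Finite := by
    have : T ⊆ {[]} ∪ ⋃ w ∈ {w | w ∈ F}, {s | s ∈ w.tails} := by
      rintro s (h | ⟨w, hw, h⟩)
      · exact Or.inl h
      · right
        simp only [Set.mem_iUnion]
        exact ⟨w, hw, h⟩
    exact ((Set.finite_singleton _).union
      (hF.biUnion fun w _ => List.finite_toSet w.tails)).subset this
  have key : ∀ l : List (List α), (∀ y ∈ l, y ∈ F) → ∀ x y : List α, l.flatten = x ++ y →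
      ∃ s z, s ∈ T ∧ x ++ s ∈ L ∧ z ∈ L ∧ y = s ++ z := by
    intro l
    induction l with
    | nil =>
      intro _ x y h
      have h1 : x = [] ∧ y = [] := by
        have := congrArg List.length h
        simp only [List.flatten_nil, List.length_nil, List.length_append] at this
        exact ⟨List.eq_nil_of_length_eq_zero (by omega),
          List.eq_nil_of_length_eq_zero (by omega)⟩
      rw [h1.1, h1.2]
      exact ⟨[], [], Or.inl rfl, hnil, hnil, rfl⟩
    | cons f l ih =>
      intro hl x y h
      rw [List.flatten_cons] at h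
      have hfF : f ∈ F := hl f (by simp)
      rcases List.append_eq_append_iff.1 h with ⟨c, h1, h2⟩ | ⟨c, h1, h2⟩
      · -- x = f ++ c, l.flatten = c ++ y
        obtain ⟨s, z, hs, h3, h4, h5⟩ := ih (fun y hy => hl y (by simp [hy])) c y h2
        refine ⟨s, z, hs, ?_, h4, h5⟩
        rw [h1, List.append_assoc]
        exact hmul _ (hone f hfF) _ h3
      · -- f = x ++ c, y = c ++ l.flatten
        refine ⟨c, l.flatten, Or.inr ⟨f, hfF, ?_⟩, ?_, ?_, h2⟩
        · rw [List.mem_tails]; exact ⟨x, h1.symm⟩
        · rw [← h1]; exact hone f hfF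
        · rw [hL, Language.mem_kstar]
          exact ⟨l, rfl, fun y hy => hl y (by simp [hy])⟩
  have hfac : ∀ x : List α, L.leftQuotient x =
      {y | ∃ s ∈ {s | s ∈ T ∧ x ++ s ∈ L}, ∃ z ∈ L, y = s ++ z} := by
    intro x
    ext y
    constructor
    · intro hy
      have hy : x ++ y ∈ L := hy
      rw [hL, Language.mem_kstar] at hy
      obtain ⟨l, h1, h2⟩ := hy
      obtain ⟨s, z, hs, h3, h4, h5⟩ := key l h2 x y h1.symm
      exact ⟨s, ⟨hs, h3⟩, z, h4, h5⟩
    · rintro ⟨s, ⟨_, hs⟩, z, hz, rfl⟩
      change x ++ (s ++ z) ∈ L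
      rw [← List.append_assoc]
      exact hmul _ hs _ hz
  have hsub : Set.range L.leftQuotient ⊆
      (fun R : Set (List α) => ({y | ∃ s ∈ R, ∃ z ∈ L, y = s ++ z} : Language α)) '' (𝒫 T) := by
    rintro _ ⟨x, rfl⟩
    exact ⟨{s | s ∈ T ∧ x ++ s ∈ L}, fun s hs => hs.1, (hfac x).symm⟩
  exact (hTf.powerset.image _).subset hsub

/-- a finitely generated submonoid is a rational subset -/
theorem rational_of_fg {A : Type} (P : Submonoid (FreeInvMonoid A)) (h : P.FG) :
    IsRationalSubset (P : Set (FreeInvMonoid A)) := by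
  obtain ⟨S, hS, hfin⟩ := (Submonoid.fg_iff P).1 h
  choose r hr using fun x : FreeInvMonoid A => can_surj x
  set F : Language (A × Bool) := r '' S with hF
  have hflat : ∀ l : List (Word A), (∀ y ∈ l, y ∈ F) → can l.flatten ∈ P := by
    intro l
    induction l with
    | nil => intro _; exact P.one_mem
    | cons f l ih =>
      intro h1
      rw [List.flatten_cons, can_append]
      apply P.mul_mem
      · obtain ⟨s, hs, hs2⟩ := h1 f (by simp)
        rw [← hs2, hr, ← hS]
        exact Submonoid.subset_closure hs
      · exact ih fun y hy => h1 y (by simp [hy])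
  refine ⟨KStar.kstar F, regular_kstar F (hfin.image r), ?_⟩
  ext x
  constructor
  · rintro ⟨w, hw, rfl⟩
    have hw : w ∈ KStar.kstar F := hw
    rw [Language.mem_kstar] at hw
    obtain ⟨l, hl, h1⟩ := hw
    rw [hl]
    exact hflat l h1
  · intro hx0
    have hx : x ∈ Submonoid.closure S := by rw [hS]; exact hx0
    clear hx0
    induction hx using Submonoid.closure_induction with
    | mem x hx =>
      refine ⟨r x, ?_, hr x⟩
      change r x ∈ KStar.kstar F
      rw [Language.mem_kstar]
      exact ⟨[r x], by simp, by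
        intro y hy
        rw [List.mem_singleton.1 hy]
        exact ⟨x, hx, rfl⟩⟩
    | one => exact ⟨[], Language.nil_mem_kstar F, rfl⟩
    | mul x y _ _ h1 h2 =>
      obtain ⟨a, ha, rfl⟩ := h1
      obtain ⟨b, hb, rfl⟩ := h2
      refine ⟨a ++ b, ?_, can_append a b⟩
      have ha : a ∈ KStar.kstar F := ha
      have hb : b ∈ KStar.kstar F := hb
      change a ++ b ∈ KStar.kstar F
      rw [Language.mem_kstar] at ha hb ⊢
      obtain ⟨la, rfl, h1⟩ := ha
      obtain ⟨lb, rfl, h2⟩ := hb
      refine ⟨la ++ lb, by simp, ?_⟩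
      intro y hy
      rcases List.mem_append.1 hy with h | h
      · exact h1 y h
      · exact h2 y h

/-- The answer to Q1 is no: if the fixed point submonoid of an endomorphism of a free inverse
monoid of finite rank is context-free, then it is rational, and even finitely generated. -/
theorem result (A : Type) [Finite A] (φ : FreeInvMonoid A →* FreeInvMonoid A)
    (h : IsContextFreeSubset {x : FreeInvMonoid A | φ x = x}) :
    IsRationalSubset {x : FreeInvMonoid A | φ x = x} ∧ (Fix φ).FG := by
  classical
  have hfg : (Fix φ).FG := by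
    obtain ⟨L, hL, hfix⟩ := h
    obtain ⟨k, hk, hk2⟩ := exists_k φ
    apply fg_of_trivial φ hk hk2
    intro y hy
    exact not_cf φ hk (z := φ^[k] y) (by rw [← Function.iterate_add_apply, hk2 y hy]) hL hfix
  exact ⟨rational_of_fg _ hfg, hfg⟩

end Pool.Agent.Results.MP_3f8f93_al.ContextFreeFix
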